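import Mathlib

set_option autoImplicit false

/-!
Linear families of singular `3 × 3` matrices have a common isotropic vector.
-/

namespace Pool.Agent.Helper93.CF

open Matrix

/-- Linear functionals on `ℂ³`. -/
abbrev Fn : Type := (Fin 3 → ℂ) →ₗ[ℂ] ℂ

theorem exists_smul_of_ker {p f : Fn} (h : ∀ x, p x = 0 → f x = 0) : ∃ μ : ℂ, ∀ x, f x = μ * p x := by
  by_cases hp : ∃ x1, p x1 ≠ 0
  · obtain ⟨x1, hx1⟩ := hp
    refine ⟨f x1 / p x1, fun x => ?_⟩
    have h1 : p (x - (p x / p x1) • x1) = 0 := by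
      rw [map_sub, map_smul, smul_eq_mul, div_mul_cancel₀ _ hx1, sub_self]
    have h2 := h _ h1
    rw [map_sub, map_smul, smul_eq_mul, sub_eq_zero] at h2
    rw [h2]
    ring
  · push Not at hp
    exact ⟨0, fun x => by rw [h x (hp x), zero_mul]⟩

theorem mul_ker {p f g : Fn} (h : ∀ x, p x = 0 → f x * g x = 0) :
    (∃ μ : ℂ, ∀ x, f x = μ * p x) ∨ (∃ μ : ℂ, ∀ x, g x = μ * p x) := by
  by_cases h1 : ∀ x, p x = 0 → f x = 0
  · exact Or.inl (exists_smul_of_ker h1)
  by_cases h2 : ∀ x, p x = 0 → g x = 0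
  · exact Or.inr (exists_smul_of_ker h2)
  exfalso
  push Not at h1 h2
  obtain ⟨x1, hp1, hf1⟩ := h1
  obtain ⟨x2, hp2, hg2⟩ := h2
  have hg1 : g x1 = 0 := (mul_eq_zero.1 (h x1 hp1)).resolve_left hf1
  have hf2 : f x2 = 0 := (mul_eq_zero.1 (h x2 hp2)).resolve_right hg2
  have h3 := h (x1 + x2) (by rw [map_add, hp1, hp2, add_zero])
  rw [map_add, map_add, hg1, hf2, add_zero, zero_add] at h3
  exact mul_ne_zero hf1 hg2 h3

theorem mul_zero' {f g : Fn} (h : ∀ x, f x * g x = 0) : (∀ x, f x = 0) ∨ (∀ x, g x = 0) := by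
  rcases mul_ker (p := 0) (f := f) (g := g) (fun x _ => h x) with ⟨μ, hμ⟩ | ⟨μ, hμ⟩
  · exact Or.inl fun x => by rw [hμ]; simp
  · exact Or.inr fun x => by rw [hμ]; simp

theorem mul3_zero {f g e : Fn} (h : ∀ x, f x * g x * e x = 0) (hf : ∃ x, f x ≠ 0)
    (hg : ∃ x, g x ≠ 0) (x : Fin 3 → ℂ) : e x = 0 := by
  by_contra he
  have h1 : ∃ a, f a * g a ≠ 0 := by
    by_contra hc
    push Not at hc
    rcases mul_zero' hc with h2 | h2
    · obtain ⟨y, hy⟩ := hf
      exact hy (h2 y)
    · obtain ⟨y, hy⟩ := hg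
      exact hy (h2 y)
  obtain ⟨a, ha⟩ := h1
  have hea : e a = 0 := (mul_eq_zero.1 (h a)).resolve_left ha
  have key : ∀ t : ℂ, (f x + t * f a) * (g x + t * g a) = 0 := by
    intro t
    have h2 := h (x + t • a)
    simp only [map_add, map_smul, smul_eq_mul, hea, mul_zero, add_zero] at h2
    exact (mul_eq_zero.1 h2).resolve_right he
  have k0 := key 0
  have k1 := key 1
  have k2 := key (-1)
  apply ha
  linear_combination (1 / 2) * k1 + (1 / 2) * k2 - k0

/-- The product relation `p² a₁ + p q a₂ + q² a₃ = 0` for independent `p`, `q`. -/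
theorem quad_rel {p q a1 a2 a3 : Fn} (hq : ¬ ∃ μ : ℂ, ∀ x, q x = μ * p x)
    (hp : ¬ ∃ μ : ℂ, ∀ x, p x = μ * q x)
    (h : ∀ x, p x * p x * a1 x + p x * q x * a2 x + q x * q x * a3 x = 0) :
    ∃ α β : ℂ, (∀ x, a1 x = β * q x) ∧ (∀ x, a3 x = α * p x) ∧
      ∀ x, a2 x = - β * p x - α * q x := by
  have h3 : ∃ α : ℂ, ∀ x, a3 x = α * p x := by
    rcases mul_ker (p := p) (f := q) (g := a3) (fun x hx => by
      have h1 := h x
      rw [hx] at h1
      have h2 : q x * (q x * a3 x) = 0 := by linear_combination h1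
      rcases mul_eq_zero.1 h2 with h4 | h4
      · rw [h4, zero_mul]
      · exact h4) with h5 | h5
    · exact absurd h5 hq
    · exact h5
  have h4 : ∃ β : ℂ, ∀ x, a1 x = β * q x := by
    rcases mul_ker (p := q) (f := p) (g := a1) (fun x hx => by
      have h1 := h x
      rw [hx] at h1
      have h2 : p x * (p x * a1 x) = 0 := by linear_combination h1
      rcases mul_eq_zero.1 h2 with h4 | h4
      · rw [h4, zero_mul]
      · exact h4) with h5 | h5
    · exact absurd h5 hp
    · exact h5
  obtain ⟨α, hα⟩ := h3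
  obtain ⟨β, hβ⟩ := h4
  refine ⟨α, β, hβ, hα, fun x => ?_⟩
  have hp0 : ∃ x, p x ≠ 0 := by
    by_contra hc
    push Not at hc
    exact hp ⟨0, fun x => by rw [hc x, zero_mul]⟩
  have hq0 : ∃ x, q x ≠ 0 := by
    by_contra hc
    push Not at hc
    exact hq ⟨0, fun x => by rw [hc x, zero_mul]⟩
  have h5 := mul3_zero (f := p) (g := q) (e := β • p + a2 + α • q) (fun x => by
    have h1 := h x
    rw [hα, hβ] at h1
    simp only [LinearMap.add_apply, LinearMap.smul_apply, smul_eq_mul]
    linear_combination h1) hp0 hq0 x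
  simp only [LinearMap.add_apply, LinearMap.smul_apply, smul_eq_mul] at h5
  linear_combination h5

/-- The product relation `p L₁ + q L₂ = 0`. -/
theorem lin_rel {p q L1 L2 : Fn} (hp : ∃ x, p x ≠ 0)
    (h : ∀ x, p x * L1 x + q x * L2 x = 0) :
    (∃ μ : ℂ, (∀ x, q x = μ * p x) ∧ ∀ x, L1 x = - μ * L2 x) ∨
      (∃ l : ℂ, (∀ x, L2 x = l * p x) ∧ ∀ x, L1 x = - l * q x) := by
  rcases mul_ker (p := p) (f := q) (g := L2) (fun x hx => by
    have h1 := h x
    rw [hx] at h1
    linear_combination h1) with ⟨μ, hμ⟩ | ⟨l, hl⟩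
  · refine Or.inl ⟨μ, hμ, fun x => ?_⟩
    rcases mul_zero' (f := p) (g := L1 + μ • L2) (fun x => by
      have h1 := h x
      rw [hμ] at h1
      simp only [LinearMap.add_apply, LinearMap.smul_apply, smul_eq_mul]
      linear_combination h1) with h2 | h2
    · obtain ⟨y, hy⟩ := hp
      exact absurd (h2 y) hy
    · have h3 := h2 x
      simp only [LinearMap.add_apply, LinearMap.smul_apply, smul_eq_mul] at h3
      linear_combination h3
  · refine Or.inr ⟨l, hl, fun x => ?_⟩
    rcases mul_zero' (f := p) (g := L1 + l • q) (fun x => by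
      have h1 := h x
      rw [hl] at h1
      simp only [LinearMap.add_apply, LinearMap.smul_apply, smul_eq_mul]
      linear_combination h1) with h2 | h2
    · obtain ⟨y, hy⟩ := hp
      exact absurd (h2 y) hy
    · have h3 := h2 x
      simp only [LinearMap.add_apply, LinearMap.smul_apply, smul_eq_mul] at h3
      linear_combination h3

/-- A complex `3 × 3` matrix has an eigenvector. -/
theorem exists_eigen (C : Matrix (Fin 3) (Fin 3) ℂ) : ∃ (μ : ℂ) (v : Fin 3 → ℂ), v ≠ 0 ∧
    C.mulVec v = μ • v := by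
  obtain ⟨μ, hμ⟩ := Module.End.exists_eigenvalue (Matrix.toLin' C)
  obtain ⟨v, hv⟩ := hμ.exists_hasEigenvector
  refine ⟨μ, v, hv.2, ?_⟩
  have h1 := hv.apply_eq_smul
  rwa [Matrix.toLin'_apply] at h1

/-- The normal form of a singular family at a point of rank two. -/
theorem sing_normal (a11 a13 a21 a22 a23 a31 a32 a33 : Fn)
    (hD : ∀ x, a11 x * (a22 x * a33 x - a23 x * a32 x) +
      a13 x * (a21 x * a32 x - a22 x * a31 x) = 0) (x0 : Fin 3 → ℂ)
    (h11 : a11 x0 = 0) (h13 : a13 x0 = 0) (h22 : a22 x0 = 0) (h32 : a32 x0 = 0)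
    (hδ : a21 x0 * a33 x0 - a23 x0 * a31 x0 ≠ 0) :
    ∃ v1 v2 v3 : ℂ, ¬ (v1 = 0 ∧ v2 = 0 ∧ v3 = 0) ∧ ∀ x,
      v1 * v1 * a11 x + v1 * v2 * a21 x + v1 * v3 * (a13 x + a31 x) + v2 * v2 * a22 x +
        v2 * v3 * (a23 x + a32 x) + v3 * v3 * a33 x = 0 := by
  by_cases hp22 : ∀ x, a22 x = 0
  · exact ⟨0, 1, 0, by simp, fun x => by rw [hp22]; ring⟩
  by_cases hp11 : ∀ x, a11 x = 0
  · exact ⟨1, 0, 0, by simp, fun x => by rw [hp11]; ring⟩
  push Not at hp22 hp11
  set b21 := a21 x0 with hb21
  set b23 := a23 x0 with hb23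
  set b31 := a31 x0 with hb31
  set b33 := a33 x0 with hb33
  have hR : ∀ z, a22 z * (b33 • a11 - b31 • a13) z + a32 z * (b21 • a13 - b23 • a11) z = 0 := by
    intro z
    have h1 := hD (x0 + z)
    have h2 := hD z
    simp only [map_add, h11, h13, h22, h32, zero_add, ← hb21, ← hb23, ← hb31, ← hb33] at h1
    simp only [LinearMap.sub_apply, LinearMap.smul_apply, smul_eq_mul]
    linear_combination h1 - h2
  rcases lin_rel hp22 hR with ⟨μ, hμ, hL⟩ | ⟨l, hl, hL⟩
  · -- case I
    simp only [LinearMap.sub_apply, LinearMap.smul_apply, smul_eq_mul] at hL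
    have hb : b31 - μ * b21 ≠ 0 := by
      intro hb
      have h1 : b33 - μ * b23 = 0 := by
        obtain ⟨y, hy⟩ := hp11
        have h2 : (b33 - μ * b23) * a11 y = 0 := by
          linear_combination hL y + a13 y * hb
        exact (mul_eq_zero.1 h2).resolve_right hy
      apply hδ
      linear_combination b21 * h1 - b23 * hb
    set ν := (b33 - μ * b23) / (b31 - μ * b21) with hν
    have h13' : ∀ x, a13 x = ν * a11 x := by
      intro x
      rw [hν, div_mul_eq_mul_div, eq_div_iff hb]
      linear_combination (-1 : ℂ) * hL x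
    refine ⟨-ν, -μ, 1, by simp, fun x => ?_⟩
    have h1 := mul3_zero (f := a11) (g := a22)
      (e := a33 - μ • a23 + (ν * μ) • a21 - ν • a31) (fun x => by
        have h2 := hD x
        rw [h13', hμ] at h2
        simp only [LinearMap.sub_apply, LinearMap.add_apply, LinearMap.smul_apply, smul_eq_mul]
        linear_combination h2) hp11 hp22 x
    simp only [LinearMap.sub_apply, LinearMap.add_apply, LinearMap.smul_apply, smul_eq_mul] at h1
    rw [h13', hμ]
    linear_combination h1
  · -- case II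
    simp only [LinearMap.sub_apply, LinearMap.smul_apply, smul_eq_mul] at hL hl
    set δ := b21 * b33 - b23 * b31 with hδ'
    have hm11 : ∀ x, δ * a11 x = l * (b31 * a22 x - b21 * a32 x) := by
      intro x
      rw [hδ']
      linear_combination b21 * hL x + b31 * hl x
    have hm13 : ∀ x, δ * a13 x = l * (b33 * a22 x - b23 * a32 x) := by
      intro x
      rw [hδ']
      linear_combination b23 * hL x + b33 * hl x
    have hl0 : l ≠ 0 := by
      intro h0
      obtain ⟨y, hy⟩ := hp11
      have h1 := hm11 y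
      rw [h0, zero_mul] at h1
      exact mul_ne_zero hδ hy h1
    by_cases hpar : ∃ μ : ℂ, ∀ x, a32 x = μ * a22 x
    · -- reduces to the direction `e₃ - μ e₂ - ν e₁` again
      obtain ⟨μ, hμ⟩ := hpar
      have hc : ∀ x, a11 x * (b33 - μ * b23) = a13 x * (b31 - μ * b21) := by
        intro x
        have h1 : a22 x * (a11 x * (b33 - μ * b23) - a13 x * (b31 - μ * b21)) = 0 := by
          have h2 := hR x
          simp only [LinearMap.sub_apply, LinearMap.smul_apply, smul_eq_mul] at h2
          rw [hμ] at h2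
          linear_combination h2
        have h2 := mul_zero' (f := a22)
          (g := (b33 - μ * b23) • a11 - (b31 - μ * b21) • a13) (fun x => by
            have h2 := hR x
            simp only [LinearMap.sub_apply, LinearMap.smul_apply, smul_eq_mul] at h2 ⊢
            rw [hμ] at h2
            linear_combination h2)
        rcases h2 with h2 | h2
        · obtain ⟨y, hy⟩ := hp22
          exact absurd (h2 y) hy
        · have h3 := h2 x
          simp only [LinearMap.sub_apply, LinearMap.smul_apply, smul_eq_mul] at h3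
          linear_combination h3
      have hb : b31 - μ * b21 ≠ 0 := by
        intro hb
        have h1 : b33 - μ * b23 = 0 := by
          obtain ⟨y, hy⟩ := hp11
          have h2 : (b33 - μ * b23) * a11 y = 0 := by
            linear_combination hc y + a13 y * hb
          exact (mul_eq_zero.1 h2).resolve_right hy
        apply hδ
        linear_combination b21 * h1 - b23 * hb
      set ν := (b33 - μ * b23) / (b31 - μ * b21) with hν
      have h13' : ∀ x, a13 x = ν * a11 x := by
        intro x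
        rw [hν, div_mul_eq_mul_div, eq_div_iff hb]
        linear_combination (-1 : ℂ) * hc x
      refine ⟨-ν, -μ, 1, by simp, fun x => ?_⟩
      have h1 := mul3_zero (f := a11) (g := a22)
        (e := a33 - μ • a23 + (ν * μ) • a21 - ν • a31) (fun x => by
          have h2 := hD x
          rw [h13', hμ] at h2
          simp only [LinearMap.sub_apply, LinearMap.add_apply, LinearMap.smul_apply, smul_eq_mul]
          linear_combination h2) hp11 hp22 x
      simp only [LinearMap.sub_apply, LinearMap.add_apply, LinearMap.smul_apply, smul_eq_mul] at h1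
      rw [h13', hμ]
      linear_combination h1
    · have hpar' : ¬ ∃ μ : ℂ, ∀ x, a22 x = μ * a32 x := by
        rintro ⟨μ, hμ⟩
        have hμ0 : μ ≠ 0 := by
          intro h0
          obtain ⟨y, hy⟩ := hp22
          exact hy (by rw [hμ, h0, zero_mul])
        exact hpar ⟨μ⁻¹, fun x => by rw [hμ x, ← mul_assoc, inv_mul_cancel₀ hμ0, one_mul]⟩
      obtain ⟨α, β, h1, h3, h2⟩ := quad_rel (p := a22) (q := a32)
        (a1 := b31 • a33 - b33 • a31) (a2 := b33 • a21 - b21 • a33 + b23 • a31 - b31 • a23)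
        (a3 := b21 • a23 - b23 • a21) hpar hpar' (fun x => by
          simp only [LinearMap.sub_apply, LinearMap.add_apply, LinearMap.smul_apply, smul_eq_mul]
          have h4 : l * (a22 x * a22 x * (b31 * a33 x - b33 * a31 x) +
              a22 x * a32 x * (b33 * a21 x - b21 * a33 x + b23 * a31 x - b31 * a23 x) +
              a32 x * a32 x * (b21 * a23 x - b23 * a21 x)) = 0 := by
            linear_combination δ * hD x - (a22 x * a33 x - a23 x * a32 x) * hm11 x -
              (a21 x * a32 x - a22 x * a31 x) * hm13 x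
          exact (mul_eq_zero.1 h4).resolve_left hl0)
      simp only [LinearMap.sub_apply, LinearMap.add_apply, LinearMap.smul_apply,
        smul_eq_mul] at h1 h2 h3
      -- the matrix `C`, scaled by `δ`
      obtain ⟨ρ, v, hv0, hv⟩ := exists_eigen
        (!![0, -b23, -b33; -l, -α, -β; 0, b21, b31] : Matrix (Fin 3) (Fin 3) ℂ)
      have e0 := congrFun hv 0
      have e1 := congrFun hv 1
      have e2 := congrFun hv 2
      simp [Matrix.mulVec, dotProduct, Fin.sum_univ_three] at e0 e1 e2
      refine ⟨v 0, v 1, v 2, ?_, fun x => ?_⟩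
      · rintro ⟨g0, g1, g2⟩
        apply hv0
        ext i
        fin_cases i <;> simp [g0, g1, g2]
      · obtain ⟨k1, hk1⟩ : ∃ k1 : ℂ, k1 = b33 * a22 x - b23 * a32 x := ⟨_, rfl⟩
        obtain ⟨k3, hk3⟩ : ∃ k3 : ℂ, k3 = b21 * a32 x - b31 * a22 x := ⟨_, rfl⟩
        obtain ⟨k2, hk2⟩ : ∃ k2 : ℂ, k2 = b31 * a23 x - b33 * a21 x - α * a32 x := ⟨_, rfl⟩
        have r11 : δ * a11 x = -l * k3 := by
          rw [hm11, hk3]; ring
        have r13 : δ * a13 x = l * k1 := by
          rw [hm13, hk1]
        have r22 : δ * a22 x = b21 * k1 + b23 * k3 := by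
          rw [hk1, hk3, hδ']; ring
        have r32 : δ * a32 x = b31 * k1 + b33 * k3 := by
          rw [hk1, hk3, hδ']; ring
        have r21 : δ * a21 x = -α * k3 - b21 * k2 := by
          rw [hk3, hk2, hδ']
          linear_combination b31 * h3 x
        have r23 : δ * a23 x = -b23 * k2 + α * k1 := by
          rw [hk1, hk2, hδ']
          linear_combination b33 * h3 x
        have r31 : δ * a31 x = -β * k3 - b31 * k2 := by
          rw [hk3, hk2, hδ']
          linear_combination (-b21) * h1 x - b31 * h2 x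
        have r33 : δ * a33 x = -b33 * k2 + β * k1 := by
          rw [hk1, hk2, hδ']
          linear_combination (-b23) * h1 x - b33 * h2 x
        have h4 : δ * (v 0 * v 0 * a11 x + v 0 * v 1 * a21 x + v 0 * v 2 * (a13 x + a31 x) +
            v 1 * v 1 * a22 x + v 1 * v 2 * (a23 x + a32 x) + v 2 * v 2 * a33 x) = 0 := by
          linear_combination (v 0 * v 0) * r11 + (v 0 * v 1) * r21 + (v 0 * v 2) * (r13 + r31) +
            (v 1 * v 1) * r22 + (v 1 * v 2) * (r23 + r32) + (v 2 * v 2) * r33 +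
            k1 * (v 1 * e2 - v 2 * e1) + k2 * (v 2 * e0 - v 0 * e2) + k3 * (v 0 * e1 - v 1 * e0)
        exact (mul_eq_zero.1 h4).resolve_left hδ

end Pool.Agent.Helper93.CF
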