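import Pool.Agent.Helper93.CF.Sing

set_option autoImplicit false

/-!
Linear families of singular `3 × 3` matrices have a common isotropic vector.
-/

namespace Pool.Agent.Helper93.CF

open Matrix

theorem minor_of_adj {R : Matrix (Fin 3) (Fin 3) ℂ} (h : R.adjugate = 0) (u u' w w' : Fin 3 → ℂ) :
    (u ⬝ᵥ R.mulVec w) * (u' ⬝ᵥ R.mulVec w') = (u ⬝ᵥ R.mulVec w') * (u' ⬝ᵥ R.mulVec w) := by
  rw [Matrix.adjugate_fin_three] at h
  have h00 := congrFun (congrFun h 0) 0
  have h01 := congrFun (congrFun h 0) 1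
  have h02 := congrFun (congrFun h 0) 2
  have h10 := congrFun (congrFun h 1) 0
  have h11 := congrFun (congrFun h 1) 1
  have h12 := congrFun (congrFun h 1) 2
  have h20 := congrFun (congrFun h 2) 0
  have h21 := congrFun (congrFun h 2) 1
  have h22 := congrFun (congrFun h 2) 2
  simp at h00 h01 h02 h10 h11 h12 h20 h21 h22
  simp only [dotProduct, Matrix.mulVec, Fin.sum_univ_three]
  linear_combination (u 1 * u' 2 - u 2 * u' 1) * (w 1 * w' 2 - w 2 * w' 1) * h00 +
    (u 2 * u' 0 - u 0 * u' 2) * (w 1 * w' 2 - w 2 * w' 1) * h01 +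
    (u 0 * u' 1 - u 1 * u' 0) * (w 1 * w' 2 - w 2 * w' 1) * h02 +
    (u 1 * u' 2 - u 2 * u' 1) * (w 2 * w' 0 - w 0 * w' 2) * h10 +
    (u 2 * u' 0 - u 0 * u' 2) * (w 2 * w' 0 - w 0 * w' 2) * h11 +
    (u 0 * u' 1 - u 1 * u' 0) * (w 2 * w' 0 - w 0 * w' 2) * h12 +
    (u 1 * u' 2 - u 2 * u' 1) * (w 0 * w' 1 - w 1 * w' 0) * h20 +
    (u 2 * u' 0 - u 0 * u' 2) * (w 0 * w' 1 - w 1 * w' 0) * h21 +
    (u 0 * u' 1 - u 1 * u' 0) * (w 0 * w' 1 - w 1 * w' 0) * h22

theorem minor_entry {R : Matrix (Fin 3) (Fin 3) ℂ} (h : R.adjugate = 0) (a b i j : Fin 3) :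
    R a b * R i j = R a j * R i b := by
  have h1 := minor_of_adj h (Pi.single a 1) (Pi.single i 1) (Pi.single b 1) (Pi.single j 1)
  simpa using h1

theorem det_add_expand (A B : Matrix (Fin 3) (Fin 3) ℂ) :
    (A + B).det - (A - B).det = 2 * (A.adjugate * B).trace + 2 * B.det := by
  rw [Matrix.adjugate_fin_three, Matrix.det_fin_three, Matrix.det_fin_three, Matrix.det_fin_three,
    Matrix.trace_fin_three]
  simp [Matrix.mul_apply, Fin.sum_univ_three]
  ring

/-- The bilinear forms of a linear family. -/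
noncomputable def Tf (M : (Fin 3 → ℂ) →ₗ[ℂ] Matrix (Fin 3) (Fin 3) ℂ) (u w : Fin 3 → ℂ) : Fn where
  toFun x := u ⬝ᵥ (M x).mulVec w
  map_add' x y := by
    rw [map_add, Matrix.add_mulVec, dotProduct_add]
  map_smul' c x := by
    rw [map_smul, Matrix.smul_mulVec, dotProduct_smul]
    rfl

theorem Tf_apply (M : (Fin 3 → ℂ) →ₗ[ℂ] Matrix (Fin 3) (Fin 3) ℂ) (u w x : Fin 3 → ℂ) :
    Tf M u w x = u ⬝ᵥ (M x).mulVec w := rfl

/-- Rank at most one everywhere. -/
theorem sing_rank_one (M : (Fin 3 → ℂ) →ₗ[ℂ] Matrix (Fin 3) (Fin 3) ℂ)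
    (h : ∀ x, (M x).adjugate = 0) :
    ∃ v : Fin 3 → ℂ, v ≠ 0 ∧ ∀ x, v ⬝ᵥ (M x).mulVec v = 0 := by
  by_cases hM : ∀ x, M x = 0
  · refine ⟨Pi.single 0 1, by simp, fun x => ?_⟩
    rw [hM x]
    simp
  push Not at hM
  obtain ⟨x1, hx1⟩ := hM
  have h1 : ∃ i j, (M x1) i j ≠ 0 := by
    by_contra hc
    push Not at hc
    exact hx1 (by ext i j; exact hc i j)
  obtain ⟨i, j, hij⟩ := h1
  -- a vector orthogonal to row `i` and column `j`
  obtain ⟨v, hv0, hv⟩ := (Matrix.exists_mulVec_eq_zero_iff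
    (M := !![(M x1) i 0, (M x1) i 1, (M x1) i 2; (M x1) 0 j, (M x1) 1 j, (M x1) 2 j; 0, 0, 0])).2
    (by simp [Matrix.det_fin_three])
  have hv1 := congrFun hv 0
  have hv2 := congrFun hv 1
  simp [Matrix.mulVec, dotProduct, Fin.sum_univ_three] at hv1 hv2
  refine ⟨v, hv0, fun z => ?_⟩
  have hl : ∀ w, v ⬝ᵥ (M x1).mulVec w = 0 := by
    intro w
    have h2 := minor_of_adj (h x1) v (Pi.single i 1) w (Pi.single j 1)
    have h3 : v ⬝ᵥ (M x1).mulVec (Pi.single j 1) = 0 := by
      simp only [dotProduct, Matrix.mulVec_single_one, Fin.sum_univ_three, Matrix.col_apply]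
      linear_combination hv2
    have h4 : (Pi.single i 1 : Fin 3 → ℂ) ⬝ᵥ (M x1).mulVec (Pi.single j 1) = (M x1) i j := by
      simp
    rw [h3, h4, zero_mul] at h2
    exact (mul_eq_zero.1 h2).resolve_right hij
  have hr : ∀ u, u ⬝ᵥ (M x1).mulVec v = 0 := by
    intro u
    have h2 := minor_of_adj (h x1) u (Pi.single i 1) v (Pi.single j 1)
    have h3 : (Pi.single i 1 : Fin 3 → ℂ) ⬝ᵥ (M x1).mulVec v = 0 := by
      simp only [single_one_dotProduct]
      simp only [dotProduct, Matrix.mulVec, Fin.sum_univ_three]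
      linear_combination hv1
    have h4 : (Pi.single i 1 : Fin 3 → ℂ) ⬝ᵥ (M x1).mulVec (Pi.single j 1) = (M x1) i j := by
      simp
    rw [h3, h4, mul_zero] at h2
    exact (mul_eq_zero.1 h2).resolve_right hij
  have key : ∀ t : ℂ, (t * Tf M v v z) * ((M x1) i j + t * Tf M (Pi.single i 1) (Pi.single j 1) z) =
      (t * Tf M v (Pi.single j 1) z) * (t * Tf M (Pi.single i 1) v z) := by
    intro t
    have h2 := minor_of_adj (h (x1 + t • z)) v (Pi.single i 1) v (Pi.single j 1)
    rw [← Tf_apply, ← Tf_apply, ← Tf_apply, ← Tf_apply] at h2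
    simp only [map_add, map_smul, smul_eq_mul] at h2
    rw [Tf_apply M v v x1, hl, Tf_apply M v _ x1, hl, Tf_apply M _ v x1, hr, zero_add, zero_add,
      zero_add] at h2
    have h4 : Tf M (Pi.single i 1) (Pi.single j 1) x1 = (M x1) i j := by
      rw [Tf_apply]
      simp
    rw [h4] at h2
    exact h2
  have k1 := key 1
  have k2 := key (-1)
  have h5 : Tf M v v z * (M x1) i j = 0 := by
    linear_combination (1 / 2) * k1 - (1 / 2) * k2
  exact (mul_eq_zero.1 h5).resolve_right hij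

/-- A linear family of singular `3 × 3` matrices has a common isotropic vector. -/
theorem sing_isotropic (M : (Fin 3 → ℂ) →ₗ[ℂ] Matrix (Fin 3) (Fin 3) ℂ)
    (hdet : ∀ x, (M x).det = 0) :
    ∃ v : Fin 3 → ℂ, v ≠ 0 ∧ ∀ x, v ⬝ᵥ (M x).mulVec v = 0 := by
  by_cases hadj : ∀ x, (M x).adjugate = 0
  · exact sing_rank_one M hadj
  push Not at hadj
  obtain ⟨x0, hx0⟩ := hadj
  have h1 : ∃ i j, (M x0).adjugate i j ≠ 0 := by
    by_contra hc
    push Not at hc
    exact hx0 (by ext i j; exact hc i j)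
  obtain ⟨i, j, hij⟩ := h1
  obtain ⟨J, hJ⟩ : ∃ J, J = (M x0).adjugate := ⟨_, rfl⟩
  rw [← hJ] at hij hx0
  have hJadj : J.adjugate = 0 := by
    rw [hJ, Matrix.adjugate_adjugate _ (by simp), hdet]
    simp
  have hrank : ∀ a b, J a b * J i j = J a j * J i b := fun a b => minor_entry hJadj a b i j
  obtain ⟨w, hw⟩ : ∃ w : Fin 3 → ℂ, w = fun a => J a j := ⟨_, rfl⟩
  obtain ⟨u, hu⟩ : ∃ u : Fin 3 → ℂ, u = fun b => J i b := ⟨_, rfl⟩
  have hMw : (M x0).mulVec w = 0 := by
    ext a
    have h2 := congrFun (congrFun (Matrix.mul_adjugate (M x0)) a) j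
    rw [hdet, zero_smul, ← hJ] at h2
    rw [hw]
    simpa [Matrix.mul_apply, Matrix.mulVec, dotProduct] using h2
  have huM : ∀ y, u ⬝ᵥ (M x0).mulVec y = 0 := by
    intro y
    have h2 : u ᵥ* (M x0) = 0 := by
      ext b
      have h2 := congrFun (congrFun (Matrix.adjugate_mul (M x0)) i) b
      rw [hdet, zero_smul, ← hJ] at h2
      rw [hu]
      simpa [Matrix.mul_apply, Matrix.vecMul, dotProduct] using h2
    rw [Matrix.dotProduct_mulVec, h2, zero_dotProduct]
  have hT : ∀ z, Tf M u w z = 0 := by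
    intro z
    have h2 := det_add_expand (M x0) (M z)
    rw [← map_add, ← map_sub, hdet, hdet, hdet, ← hJ] at h2
    have h3 : (J * M z).trace = 0 := by linear_combination (-1 / 2 : ℂ) * h2
    have h4 : Tf M u w z = J i j * (J * M z).trace := by
      rw [Tf_apply, hu, hw, Matrix.trace_fin_three]
      simp only [Matrix.mul_apply, dotProduct, Matrix.mulVec, Fin.sum_univ_three]
      linear_combination (-1 : ℂ) * ((M z) 0 0 * hrank 0 0 + (M z) 1 0 * hrank 0 1 +
        (M z) 2 0 * hrank 0 2 + (M z) 0 1 * hrank 1 0 + (M z) 1 1 * hrank 1 1 +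
        (M z) 2 1 * hrank 1 2 + (M z) 0 2 * hrank 2 0 + (M z) 1 2 * hrank 2 1 +
        (M z) 2 2 * hrank 2 2)
    rw [h4, h3, mul_zero]
  have hui : u j = J i j := by rw [hu]
  have hwi : w i = J i j := by rw [hw]
  by_cases hpar : ∀ a b, u a * w b = u b * w a
  · refine ⟨w, ?_, fun x => ?_⟩
    · intro h0
      rw [h0] at hwi
      exact hij hwi.symm
    · have h2 : ∀ a, J i j * u a = u i * w a := by
        intro a
        have h3 := hpar a i
        rw [hwi] at h3
        linear_combination h3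
      have h3 : u i ≠ 0 := by
        intro h0
        have h4 := h2 j
        rw [h0, hui, zero_mul] at h4
        exact mul_ne_zero hij hij h4
      have h4 : u i * (w ⬝ᵥ (M x).mulVec w) = J i j * Tf M u w x := by
        rw [Tf_apply, ← smul_eq_mul, ← smul_eq_mul, ← smul_dotProduct, ← smul_dotProduct]
        congr 1
        ext a
        simp only [Pi.smul_apply, smul_eq_mul]
        rw [h2]
      rw [hT, mul_zero] at h4
      exact (mul_eq_zero.1 h4).resolve_left h3
  · -- complete `u`, `w` to a basis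
    have hk : ∃ e : Fin 3 → ℂ,
        (Matrix.of fun a b => (![u, w, e] : Fin 3 → Fin 3 → ℂ) b a).det ≠ 0 := by
      by_contra hc
      push Not at hc
      apply hpar
      have c0 := hc (Pi.single 0 1)
      have c1 := hc (Pi.single 1 1)
      have c2 := hc (Pi.single 2 1)
      rw [Matrix.det_fin_three] at c0 c1 c2
      simp [Pi.single_apply] at c0 c1 c2
      have d01 : u 0 * w 1 = u 1 * w 0 := by linear_combination c2
      have d02 : u 0 * w 2 = u 2 * w 0 := by linear_combination (-1 : ℂ) * c1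
      have d12 : u 1 * w 2 = u 2 * w 1 := by linear_combination c0
      intro a b
      fin_cases a <;> fin_cases b <;> simp <;>
        first | ring1 | linear_combination d01 | linear_combination d02 | linear_combination d12 |
          linear_combination (-1 : ℂ) * d01 | linear_combination (-1 : ℂ) * d02 |
          linear_combination (-1 : ℂ) * d12
    obtain ⟨e, he⟩ := hk
    obtain ⟨S, hS⟩ : ∃ S : Matrix (Fin 3) (Fin 3) ℂ,
      S = Matrix.of fun a b => (![u, w, e] : Fin 3 → Fin 3 → ℂ) b a := ⟨_, rfl⟩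
    rw [← hS] at he
    have hP : ∀ x a b, (Sᵀ * M x * S) a b =
        Tf M ((![u, w, e] : Fin 3 → Fin 3 → ℂ) a) ((![u, w, e] : Fin 3 → Fin 3 → ℂ) b) x := by
      intro x a b
      rw [Tf_apply, Matrix.mul_assoc, Matrix.mul_apply, dotProduct]
      refine Finset.sum_congr rfl fun c _ => ?_
      rw [Matrix.transpose_apply, hS]
      simp [Matrix.mul_apply, Matrix.mulVec, dotProduct]
    have hPdet : ∀ x, (Sᵀ * M x * S).det = 0 := by
      intro x
      rw [Matrix.det_mul, Matrix.det_mul, hdet]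
      ring
    have hPadj : (Sᵀ * M x0 * S).adjugate ≠ 0 := by
      intro h0
      rw [Matrix.adjugate_mul_distrib, Matrix.adjugate_mul_distrib, ← hJ] at h0
      have h2 : S * (S.adjugate * (J * Sᵀ.adjugate)) * Sᵀ = 0 := by
        rw [h0, Matrix.mul_zero, Matrix.zero_mul]
      rw [← Matrix.mul_assoc, Matrix.mul_adjugate, smul_mul_assoc, one_mul, smul_mul_assoc,
        Matrix.mul_assoc, Matrix.adjugate_mul, Matrix.mul_smul, mul_one, Matrix.det_transpose,
        smul_smul] at h2
      have h3 := smul_eq_zero.1 h2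
      rcases h3 with h3 | h3
      · exact mul_ne_zero he he h3
      · exact hx0 h3
    have z0 : ∀ y, Tf M u y x0 = 0 := fun y => by rw [Tf_apply, huM]
    have z1 : ∀ y, Tf M y w x0 = 0 := fun y => by rw [Tf_apply, hMw, dotProduct_zero]
    have hδ : Tf M w u x0 * Tf M e e x0 - Tf M w e x0 * Tf M e u x0 ≠ 0 := by
      intro h0
      apply hPadj
      rw [Matrix.adjugate_fin_three]
      simp only [hP]
      ext a b
      fin_cases a <;> fin_cases b <;> simp [z0, z1]
      linear_combination (-1 : ℂ) * h0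
    obtain ⟨v1, v2, v3, hv, hq⟩ := sing_normal (Tf M u u) (Tf M u e) (Tf M w u) (Tf M w w)
      (Tf M w e) (Tf M e u) (Tf M e w) (Tf M e e) (fun x => by
        have h2 := hPdet x
        rw [Matrix.det_fin_three] at h2
        simp only [hP] at h2
        simp [hT] at h2
        linear_combination h2) x0 (z0 u) (z0 e) (z1 w) (z1 e) hδ
    refine ⟨v1 • u + v2 • w + v3 • e, ?_, fun x => ?_⟩
    · intro h0
      apply hv
      have h2 : S.mulVec ![v1, v2, v3] = 0 := by
        ext a
        have h3 := congrFun h0 a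
        rw [hS]
        simp [Matrix.mulVec, dotProduct, Fin.sum_univ_three] at h3 ⊢
        linear_combination h3
      have h3 : (![v1, v2, v3] : Fin 3 → ℂ) = 0 := by
        by_contra hc
        exact he (Matrix.exists_mulVec_eq_zero_iff.1 ⟨_, hc, h2⟩)
      have g0 := congrFun h3 0
      have g1 := congrFun h3 1
      have g2 := congrFun h3 2
      simp at g0 g1 g2
      exact ⟨g0, g1, g2⟩
    · have h2 := hq x
      have h3 := hT x
      simp only [Tf_apply] at h2 h3
      simp only [Matrix.mulVec_add, Matrix.mulVec_smul, dotProduct_add, add_dotProduct,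
        dotProduct_smul, smul_dotProduct, smul_eq_mul]
      linear_combination h2 + v1 * v2 * h3

end Pool.Agent.Helper93.CF
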